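import Pool.Agent.R555.ST1
import Pool.Agent.R555.ST2

/-!
# Sample-based testing of stretched configurations with `O (n ^ (5/6) (log n) ^ (1/6))` samples

Fix the point `q` which is placed last. A set `T` can be stretched with `q` on top of it iff the
points of `T` are linearly ordered around `q` and every nonempty subset `B` of `T` has a point
which is on the same side as `q` of all the lines through two other points of `B`.

* (Helly type theorem.) This holds for `T` iff it holds for all the subsets of `T` with at most six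
  points: let `l` be the first point of `B` around `q` and let `u` be such that all the other
  points of `B` are below the line `l u`; then only `l` and `u` can be available, so two witness
  pairs for these two points together with `l` and `u` form a bad set.
* If `S` is `ε`-far from being stretched then for every `q` there are at least `ε n / 6` disjoint
  bad sets with at most six points. A random sample contains one of them with probability at least
  `1 - 2 exp (- ρ ^ 6 ε n / 6)` where `ρ = k / (2 n)`, and there are only `n` choices of `q`.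
-/

set_option autoImplicit false

namespace Pool.Agent.Results.MP_097bbc_lc.StretchedTester

open Finset Filter Topology Pool.Agent.R555.ST

/-- The orientation of a triple of points. -/
noncomputable def orient (a b c : Pt) : SignType := SignType.sign (det a b c)

/-- The two sets have the same order type. -/
def SameConfig (S S' : Finset Pt) : Prop :=
  ∃ f : S ≃ S', ∀ a b c : S, orient (f a) (f b) (f c) = orient a b c

/-- `h` gives the new heights of the points of `T` in the construction of `STRETCH(T)`: a new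
point `(p.1, h p)` lies above all the points placed before and above all the lines through two of
them. -/
def IsStretching (T : Finset Pt) (h : Pt → ℝ) : Prop :=
  ∀ p ∈ T, (∀ a ∈ T, a.2 < p.2 → h a < h p) ∧
    ∀ a ∈ T, ∀ b ∈ T, a ≠ b → a.2 < p.2 → b.2 < p.2 → Above (p.1, h p) (a.1, h a) (b.1, h b)

/-- The configuration of `S` is `STRETCH(T)` for some `T`. -/
def Stretched (S : Finset Pt) : Prop :=
  ∃ (T : Finset Pt) (h : Pt → ℝ), (∀ a ∈ T, ∀ b ∈ T, a ≠ b → a.1 ≠ b.1 ∧ a.2 ≠ b.2) ∧
    IsStretching T h ∧ SameConfig S (T.image fun a => (a.1, h a))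

/-- `S` is `ε`-far from being stretched. -/
def Far (ε : ℝ) (S : Finset Pt) : Prop :=
  ∀ R ⊆ S, (#R : ℝ) ≤ ε * #S → ¬ Stretched (S \ R)

lemma sign_transfer {x y c : ℝ} (h : SignType.sign x = SignType.sign y) (hx : 0 < x * c) :
    0 < y * c := by
  rcases lt_trichotomy x 0 with h0 | h0 | h0
  · rw [sign_neg h0] at h
    have h1 : y < 0 := sign_eq_neg_one_iff.1 h.symm
    have h2 : c < 0 := by
      by_contra hc
      push Not at hc
      have := mul_nonpos_of_nonpos_of_nonneg h0.le hc
      linarith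
    exact mul_pos_of_neg_of_neg h1 h2
  · rw [h0, zero_mul] at hx
    exact absurd hx (lt_irrefl _)
  · rw [sign_pos h0] at h
    have h1 : 0 < y := sign_eq_one_iff.1 h.symm
    exact mul_pos h1 (pos_of_mul_pos_right hx h0.le)

/-- a combinatorial form -/
def Comb (K : Finset Pt) : Prop :=
  ∃ X Y : Pt → ℝ, (∀ a ∈ K, ∀ b ∈ K, a ≠ b → X a ≠ X b ∧ Y a ≠ Y b) ∧
    ∀ p ∈ K, ∀ a ∈ K, ∀ b ∈ K, a ≠ b → Y a < Y p → Y b < Y p → 0 < det a b p * (X b - X a)

lemma Stretched.comb {K : Finset Pt} (hK : Stretched K) : Comb K := by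
  classical
  obtain ⟨T, h, hdist, hstr, f, hf⟩ := hK
  have h1 : ∀ z : K, ∃ a ∈ T, (a.1, h a) = (f z : Pt) := fun z => mem_image.1 (f z).2
  choose t ht htf using h1
  have htinj : ∀ a b : K, a ≠ b → t a ≠ t b := by
    intro a b hab h2
    apply hab
    apply f.injective
    apply Subtype.ext
    rw [← htf a, ← htf b, h2]
  refine ⟨fun z => if hz : z ∈ K then (t ⟨z, hz⟩).1 else 0,
    fun z => if hz : z ∈ K then (t ⟨z, hz⟩).2 else 0, ?_, ?_⟩
  · intro a ha b hb hab
    simp only [dif_pos ha, dif_pos hb]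
    exact hdist _ (ht _) _ (ht _) (htinj _ _ fun h2 => hab (congrArg Subtype.val h2))
  · intro p hp a ha b hb hab hap hbp
    simp only [dif_pos hp, dif_pos ha, dif_pos hb] at hap hbp ⊢
    have hne : t ⟨a, ha⟩ ≠ t ⟨b, hb⟩ := htinj _ _ fun h2 => hab (congrArg Subtype.val h2)
    have h2 := (hstr _ (ht ⟨p, hp⟩)).2 _ (ht ⟨a, ha⟩) _ (ht ⟨b, hb⟩) hne hap hbp
    have hx : ((t ⟨a, ha⟩).1, h (t ⟨a, ha⟩)).1 ≠ ((t ⟨b, hb⟩).1, h (t ⟨b, hb⟩)).1 :=
      (hdist _ (ht _) _ (ht _) hne).1
    have h3 := (above_iff hx).1 h2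
    change 0 < det ((t ⟨a, ha⟩).1, h (t ⟨a, ha⟩)) ((t ⟨b, hb⟩).1, h (t ⟨b, hb⟩))
      ((t ⟨p, hp⟩).1, h (t ⟨p, hp⟩)) * ((t ⟨b, hb⟩).1 - (t ⟨a, ha⟩).1) at h3
    rw [htf, htf, htf] at h3
    exact sign_transfer (hf ⟨a, ha⟩ ⟨b, hb⟩ ⟨p, hp⟩) h3

lemma Comb.exists_top {K : Finset Pt} (hK : Comb K) (hne : K.Nonempty) :
    ∃ q ∈ K, G q (K.erase q) := by
  classical
  obtain ⟨X, Y, hd, h⟩ := hK
  obtain ⟨q, hq, hmax⟩ := exists_max_image K Y hne
  have hlt : ∀ a ∈ K.erase q, Y a < Y q := fun a ha =>
    lt_of_le_of_ne (hmax a (mem_erase.1 ha).2) (hd a (mem_erase.1 ha).2 q hq (mem_erase.1 ha).1).2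
  have hX : ∀ a ∈ K.erase q, ∀ b ∈ K.erase q, a ≠ b → 0 < det a b q * (X b - X a) :=
    fun a ha b hb hab => h q hq a (mem_erase.1 ha).2 b (mem_erase.1 hb).2 hab (hlt a ha) (hlt b hb)
  refine ⟨q, hq, ?_, ?_⟩
  · intro a ha b hb hab
    have h1 := hX a ha b hb hab
    refine ⟨fun h0 => by rw [h0, zero_mul] at h1; exact lt_irrefl _ h1, fun c hc h2 h3 => ?_⟩
    have hbc : b ≠ c := by
      rintro rfl
      rw [det_self] at h3
      exact lt_irrefl _ h3
    have h4 := hX b hb c hc hbc
    have h5 : X a < X b := by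
      have := pos_of_mul_pos_right h1 h2.le
      linarith
    have h6 : X b < X c := by
      have := pos_of_mul_pos_right h4 h3.le
      linarith
    have hac : a ≠ c := by
      rintro rfl
      linarith
    have h7 := hX a ha c hc hac
    exact pos_of_mul_pos_left h7 (by linarith)
  · intro B hB hBne
    obtain ⟨z, hz, hzmax⟩ := exists_max_image B Y hBne
    refine ⟨z, hz, fun a ha b hb hab haz hbz => ?_⟩
    have haK := (mem_erase.1 (hB ha)).2
    have hbK := (mem_erase.1 (hB hb)).2
    have hzK := (mem_erase.1 (hB hz)).2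
    have h1 := h z hzK a haK b hbK hab (lt_of_le_of_ne (hzmax a ha) (hd a haK z hzK haz).2)
      (lt_of_le_of_ne (hzmax b hb) (hd b hbK z hzK hbz).2)
    have h2 := hX a (hB ha) b (hB hb) hab
    have h3 : 0 < (det a b z * det a b q) * (X b - X a) ^ 2 := by
      have : (det a b z * det a b q) * (X b - X a) ^ 2 =
          (det a b z * (X b - X a)) * (det a b q * (X b - X a)) := by ring
      rw [this]
      exact mul_pos h1 h2
    exact pos_of_mul_pos_left h3 (sq_nonneg _)

lemma stretched_of_heights {S : Finset Pt} {x Y : Pt → ℝ} (hH : Heights x Y S)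
    (hx : ∀ a ∈ S, ∀ b ∈ S, a ≠ b → x a ≠ x b) : Stretched S := by
  classical
  let φ : Pt → Pt := fun z => (x z, Y z)
  have hφ : ∀ a ∈ S, ∀ b ∈ S, a ≠ b → φ a ≠ φ b := fun a ha b hb hab h =>
    hx a ha b hb hab (congrArg Prod.fst h)
  refine ⟨S.image φ, Prod.snd, ?_, ?_, ?_⟩
  · intro a ha b hb hab
    obtain ⟨a', ha', rfl⟩ := mem_image.1 ha
    obtain ⟨b', hb', rfl⟩ := mem_image.1 hb
    have hne : a' ≠ b' := fun h => hab (by rw [h])
    exact ⟨hx a' ha' b' hb' hne, hH.1 a' ha' b' hb' hne⟩
  · intro p hp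
    obtain ⟨p', hp', rfl⟩ := mem_image.1 hp
    refine ⟨fun a _ h => h, ?_⟩
    intro a ha b hb hab hap hbp
    obtain ⟨a', ha', rfl⟩ := mem_image.1 ha
    obtain ⟨b', hb', rfl⟩ := mem_image.1 hb
    have hne : a' ≠ b' := fun h => hab (by rw [h])
    exact (hH.2 p' hp' a' ha' b' hb' hne hap hbp).2
  · have himg : ((S.image φ).image fun a => (a.1, a.2)) = S.image φ := by
      simp
    rw [himg]
    let f : S → S.image φ := fun z => ⟨φ z, mem_image_of_mem φ z.2⟩
    have hf : Function.Bijective f := by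
      constructor
      · intro a b h
        by_contra hne
        exact hφ a a.2 b b.2 (fun h' => hne (Subtype.ext h')) (congrArg Subtype.val h)
      · rintro ⟨y, hy⟩
        obtain ⟨a, ha, rfl⟩ := mem_image.1 hy
        exact ⟨⟨a, ha⟩, rfl⟩
    refine ⟨Equiv.ofBijective f hf, ?_⟩
    -- the case where `c` is the top point
    have htop : ∀ a ∈ S, ∀ b ∈ S, ∀ c ∈ S, a ≠ b → Y a < Y c → Y b < Y c →
        SignType.sign (det (φ a) (φ b) (φ c)) = SignType.sign (det a b c) := by
      intro a ha b hb c hc hab hac hbc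
      obtain ⟨h1, h2⟩ := hH.2 c hc a ha b hb hab hac hbc
      rw [above_iff (hx a ha b hb hab)] at h2
      change 0 < det (φ a) (φ b) (φ c) * (x b - x a) at h2
      rcases lt_or_gt_of_ne (hx a ha b hb hab) with h3 | h3
      · have h4 : 0 < x b - x a := by linarith
        rw [sign_pos (pos_of_mul_pos_left h2 h4.le), sign_pos (pos_of_mul_pos_left h1 h4.le)]
      · have h4 : x b - x a < 0 := by linarith
        have h5 : det (φ a) (φ b) (φ c) < 0 := by
          by_contra h
          push Not at h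
          have := mul_nonpos_of_nonneg_of_nonpos h h4.le
          linarith
        have h6 : det a b c < 0 := by
          by_contra h
          push Not at h
          have := mul_nonpos_of_nonneg_of_nonpos h h4.le
          linarith
        rw [sign_neg h5, sign_neg h6]
    rintro ⟨a, ha⟩ ⟨b, hb⟩ ⟨c, hc⟩
    change SignType.sign (det (φ a) (φ b) (φ c)) = SignType.sign (det a b c)
    by_cases hab : a = b
    · subst hab
      rw [det_self, det_self]
    by_cases hbc : b = c
    · subst hbc
      rw [det_self', det_self']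
    by_cases hac : a = c
    · subst hac
      rw [det_self'', det_self'']
    have h1 := hH.1 a ha b hb hab
    have h2 := hH.1 b hb c hc hbc
    have h3 := hH.1 a ha c hc hac
    rcases lt_or_gt_of_ne h1 with h4 | h4
    · rcases lt_or_gt_of_ne h2 with h5 | h5
      · exact htop a ha b hb c hc hab (h4.trans h5) h5
      · -- `b` is the top point
        rw [det_rot (φ a), det_rot (φ b), det_rot a, det_rot b]
        exact htop c hc a ha b hb (Ne.symm hac) h5 h4
    · rcases lt_or_gt_of_ne h3 with h5 | h5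
      · exact htop a ha b hb c hc hab h5 (h4.trans h5)
      · rw [det_rot (φ a), det_rot a]
        exact htop b hb c hc a ha hbc h4 h5

lemma stretched_of_G {q : Pt} {T : Finset Pt} (hq : q ∉ T) (hG : G q T) :
    Stretched (insert q T) := by
  classical
  obtain ⟨x, hx0, hx⟩ := hG.1.exists_fun
  let x' : Pt → ℝ := Function.update x q (-1)
  have hx'q : x' q = -1 := Function.update_self _ _ _
  have hx'a : ∀ a ∈ T, x' a = x a := by
    intro a ha
    refine Function.update_of_ne ?_ _ _
    rintro rfl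
    exact hq ha
  have hx' : ∀ a ∈ T, ∀ b ∈ T, a ≠ b → 0 < det a b q * (x' b - x' a) := by
    intro a ha b hb hab
    rw [hx'a a ha, hx'a b hb]
    exact hx a ha b hb hab
  obtain ⟨Y, hY⟩ := G.heights #T T rfl hG hx'
  obtain ⟨Y', hY'⟩ := hY.insert hq hx'
  refine stretched_of_heights hY' ?_
  intro a ha b hb hab h
  rw [mem_insert] at ha hb
  rcases ha with rfl | ha <;> rcases hb with rfl | hb
  · exact hab rfl
  · rw [hx'q, hx'a b hb] at h
    have := hx0 b
    linarith
  · rw [hx'q, hx'a a ha] at h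
    have := hx0 a
    linarith
  · have h1 := hx' a ha b hb hab
    rw [h, sub_self, mul_zero] at h1
    exact lt_irrefl _ h1

/-- Many disjoint bad sets. -/
lemma exists_family {ε : ℝ} {S : Finset Pt} (hfar : Far ε S) {q : Pt} (hq : q ∈ S) :
    ∃ F : Finset (Finset Pt), (∀ B ∈ F, B ⊆ S.erase q) ∧ (∀ B ∈ F, #B ≤ 6) ∧
      (∀ B ∈ F, ¬ G q B) ∧ (F : Set (Finset Pt)).PairwiseDisjoint id ∧ ε * #S / 6 ≤ #F := by
  classical
  let valid : Finset (Finset Pt) → Prop := fun F => (∀ B ∈ F, #B ≤ 6) ∧ (∀ B ∈ F, ¬ G q B) ∧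
    (F : Set (Finset Pt)).PairwiseDisjoint id
  obtain ⟨F, hF, hmax⟩ := exists_max_image ((S.erase q).powerset.powerset.filter valid) card
    ⟨∅, by simp [valid]⟩
  rw [mem_filter, mem_powerset] at hF
  obtain ⟨hFS, h6, hbad, hdis⟩ := hF
  have hFS' : ∀ B ∈ F, B ⊆ S.erase q := fun B hB => mem_powerset.1 (hFS hB)
  refine ⟨F, hFS', h6, hbad, hdis, ?_⟩
  set U := F.biUnion id with hU
  have hUS : U ⊆ S.erase q := biUnion_subset.2 fun B hB => hFS' B hB
  have hqU : q ∉ U := fun h => (mem_erase.1 (hUS h)).1 rfl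
  have hG : G q ((S \ U).erase q) := by
    refine helly fun B hB hB6 => ?_
    by_contra hnG
    have hBne : B.Nonempty := by
      rw [nonempty_iff_ne_empty]
      rintro rfl
      exact hnG (G_empty q)
    have hBS : B ⊆ S.erase q := hB.trans (erase_subset_erase _ sdiff_subset)
    have hBU : Disjoint B U := by
      rw [Finset.disjoint_left]
      intro x hx hxU
      exact (mem_sdiff.1 (mem_erase.1 (hB hx)).2).2 hxU
    have hBF : B ∉ F := by
      intro h
      have h1 : B ⊆ U := subset_biUnion_of_mem id h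
      obtain ⟨x, hx⟩ := hBne
      exact (Finset.disjoint_left.1 hBU) hx (h1 hx)
    have hval : insert B F ∈ (S.erase q).powerset.powerset.filter valid := by
      rw [mem_filter, mem_powerset]
      refine ⟨?_, ?_, ?_, ?_⟩
      · intro C hC
        rcases mem_insert.1 hC with rfl | hC
        · exact mem_powerset.2 hBS
        · exact hFS hC
      · intro C hC
        rcases mem_insert.1 hC with rfl | hC
        · exact hB6
        · exact h6 C hC
      · intro C hC
        rcases mem_insert.1 hC with rfl | hC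
        · exact hnG
        · exact hbad C hC
      · rw [coe_insert]
        refine hdis.insert fun C hC _ => ?_
        exact hBU.mono_right (subset_biUnion_of_mem id hC)
    have h1 := hmax _ hval
    rw [card_insert_of_notMem hBF] at h1
    omega
  have hstr : Stretched (S \ U) := by
    have h1 := stretched_of_G (notMem_erase q (S \ U)) hG
    rwa [insert_erase (mem_sdiff.2 ⟨hq, hqU⟩)] at h1
  have hUcard : ¬ (#U : ℝ) ≤ ε * #S := fun h => hfar U (hUS.trans (erase_subset _ _)) h hstr
  push Not at hUcard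
  have h1 : #U ≤ #F * 6 := card_biUnion_le_card_mul F id 6 h6
  have h2 : (#U : ℝ) ≤ #F * 6 := by exact_mod_cast h1
  rw [div_le_iff₀ (by norm_num)]
  linarith

open Classical in
/-- The acceptance probability. -/
theorem accept_bound {ε p ρ : ℝ} {S : Finset Pt} (hfar : Far ε S) {k : ℕ} (hk1 : 1 ≤ k)
    (hkS : k ≤ #S) (h0 : 0 ≤ ρ) (h1 : ρ ≤ 1) (hk : 2 * (#S * ρ) ≤ k)
    (hp : 2 * #S * Real.exp (- (ρ ^ 6 * (ε * #S / 6))) ≤ p) :
    (#{K ∈ S.powersetCard k | Stretched K} : ℝ) ≤ p * (#S).choose k := by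
  have hfam : ∀ q : Pt, ∃ F : Finset (Finset Pt), q ∈ S → (∀ B ∈ F, B ⊆ S.erase q) ∧
      (∀ B ∈ F, #B ≤ 6) ∧ (∀ B ∈ F, ¬ G q B) ∧ (F : Set (Finset Pt)).PairwiseDisjoint id ∧
      ε * #S / 6 ≤ #F := by
    intro q
    by_cases hq : q ∈ S
    · obtain ⟨F, hF⟩ := exists_family hfar hq
      exact ⟨F, fun _ => hF⟩
    · exact ⟨∅, fun h => absurd h hq⟩
  choose F hF using hfam
  have hsub : ({K ∈ S.powersetCard k | Stretched K} : Finset (Finset Pt)) ⊆
      S.biUnion fun q => {K ∈ S.powersetCard k | ∀ B ∈ F q, ¬ B ⊆ K} := by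
    intro K hK
    rw [mem_filter, mem_powersetCard] at hK
    obtain ⟨⟨hKS, hKc⟩, hKs⟩ := hK
    obtain ⟨q, hq, hG⟩ := hKs.comb.exists_top (card_pos.1 (by omega))
    obtain ⟨hF1, hF2, hF3, hF4, hF5⟩ := hF q (hKS hq)
    refine mem_biUnion.2 ⟨q, hKS hq, ?_⟩
    rw [mem_filter, mem_powersetCard]
    refine ⟨⟨hKS, hKc⟩, fun B hB hBK => hF3 B hB (hG.mono ?_)⟩
    intro x hx
    exact mem_erase.2 ⟨(mem_erase.1 (hF1 B hB hx)).1, hBK hx⟩
  have hcount : (#{K ∈ S.powersetCard k | Stretched K} : ℝ) ≤
      ∑ q ∈ S, (#{K ∈ S.powersetCard k | ∀ B ∈ F q, ¬ B ⊆ K} : ℝ) := by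
    exact_mod_cast (card_le_card hsub).trans card_biUnion_le
  refine hcount.trans ?_
  calc ∑ q ∈ S, (#{K ∈ S.powersetCard k | ∀ B ∈ F q, ¬ B ⊆ K} : ℝ)
      ≤ ∑ q ∈ S, 2 * Real.exp (- (ρ ^ 6 * (ε * #S / 6))) * (#S).choose k := by
        refine sum_le_sum fun q hq => ?_
        obtain ⟨hF1, hF2, hF3, hF4, hF5⟩ := hF q hq
        refine (avoid_prob (fun B hB => (hF1 B hB).trans (erase_subset _ _)) hF4 hF2 h0 h1 hk
          hk1 hkS).trans ?_
        refine mul_le_mul_of_nonneg_right ?_ (by positivity)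
        refine mul_le_mul_of_nonneg_left ?_ (by norm_num)
        refine Real.exp_le_exp.2 ?_
        have := mul_le_mul_of_nonneg_left hF5 (pow_nonneg h0 6)
        linarith
    _ = (2 * #S * Real.exp (- (ρ ^ 6 * (ε * #S / 6)))) * (#S).choose k := by
        rw [sum_const, nsmul_eq_mul]
        ring
    _ ≤ p * (#S).choose k := mul_le_mul_of_nonneg_right hp (by positivity)

/-- the sampling rate -/
noncomputable def rate (ε p : ℝ) (n : ℕ) : ℝ :=
  (6 * Real.log (2 * n / p) / (ε * n)) ^ (1 / 6 : ℝ)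

lemma tendsto_rate {ε p : ℝ} (hε : 0 < ε) (hp : 0 < p) : Tendsto (rate ε p) atTop (𝓝 0) := by
  have h1 : Tendsto (fun n : ℕ => Real.log n / n) atTop (𝓝 0) := by
    have h2 : Tendsto (fun x : ℝ => Real.log x / x) atTop (𝓝 0) := by
      have := Real.isLittleO_log_id_atTop.tendsto_div_nhds_zero
      simpa using this
    exact h2.comp tendsto_natCast_atTop_atTop
  have h3 : Tendsto (fun n : ℕ => Real.log (2 / p) / n) atTop (𝓝 0) :=
    tendsto_const_div_atTop_nhds_zero_nat _
  have h4 : Tendsto (fun n : ℕ => 6 / ε * (Real.log n / n + Real.log (2 / p) / n)) atTop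
      (𝓝 0) := by
    have := (h1.add h3).const_mul (6 / ε)
    simpa using this
  have h5 : Tendsto (fun n : ℕ => 6 * Real.log (2 * n / p) / (ε * n)) atTop (𝓝 0) := by
    refine h4.congr' ?_
    filter_upwards [eventually_ge_atTop 1] with n hn
    have hn0 : (0 : ℝ) < n := by exact_mod_cast hn
    have e1 : 2 * (n : ℝ) / p = n * (2 / p) := by ring
    rw [e1, Real.log_mul hn0.ne' (by positivity)]
    field_simp
  have h6 := h5.rpow_const (p := (1 / 6 : ℝ)) (Or.inr (by norm_num))
  rw [Real.zero_rpow (by norm_num)] at h6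
  exact h6

open Classical in
/-- The answer to Q1 is positive. For all `ε, p ∈ (0, 1)` there is a sample size
`k n ≤ 2 n (6 log (2 n / p) / (ε n)) ^ (1/6) + 1 = O (n ^ (5/6) (log n) ^ (1/6))` such that for
every `n`-point set `S` which is `ε`-far from being stretched at most `p * (n choose k n)` of the
subsets of `S` with `k n` points are stretched. -/
theorem result : ∀ ε p : ℝ, 0 < ε → ε < 1 → 0 < p → p < 1 →
    ∃ k : ℕ → ℕ, (∀ n, k n ≤ n) ∧
      (∀ n : ℕ, (k n : ℝ) ≤
        2 * n * (6 * Real.log (2 * n / p) / (ε * n)) ^ (1 / 6 : ℝ) + 1) ∧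
      Tendsto (fun n : ℕ => (k n : ℝ) / n) atTop (𝓝 0) ∧
      ∀ (n : ℕ) (S : Finset Pt), #S = n → Far ε S →
        (#{K ∈ S.powersetCard (k n) | Stretched K} : ℝ) ≤ p * n.choose (k n) := by
  intro ε p hε hε1 hp hp1
  have hlog : ∀ n : ℕ, 1 ≤ n → 0 < Real.log (2 * n / p) := by
    intro n hn
    have hn0 : (1 : ℝ) ≤ n := by exact_mod_cast hn
    refine Real.log_pos ?_
    rw [lt_div_iff₀ hp]
    linarith
  have hrate0 : ∀ n, 0 ≤ rate ε p n := by
    intro n
    rcases Nat.eq_zero_or_pos n with h | h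
    · subst h
      unfold rate
      simp
    · have := hlog n h
      have hn0 : (0 : ℝ) < n := by exact_mod_cast h
      unfold rate
      positivity
  have hk2 : ∀ n : ℕ, ((min n ⌈2 * n * rate ε p n⌉₊ : ℕ) : ℝ) ≤ 2 * n * rate ε p n + 1 := by
    intro n
    have h1 : ((min n ⌈2 * n * rate ε p n⌉₊ : ℕ) : ℝ) ≤ (⌈2 * n * rate ε p n⌉₊ : ℝ) := by
      exact_mod_cast min_le_right _ _
    have h2 : 0 ≤ 2 * n * rate ε p n := mul_nonneg (by positivity) (hrate0 n)
    exact h1.trans (Nat.ceil_lt_add_one h2).le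
  refine ⟨fun n => min n ⌈2 * n * rate ε p n⌉₊, fun n => min_le_left _ _, hk2, ?_, ?_⟩
  · -- sublinear
    have h1 : Tendsto (fun n : ℕ => 2 * rate ε p n + 1 / n) atTop (𝓝 0) := by
      have h2 := (tendsto_rate hε hp).const_mul 2
      have h3 : Tendsto (fun n : ℕ => 1 / (n : ℝ)) atTop (𝓝 0) :=
        tendsto_const_div_atTop_nhds_zero_nat 1
      have := h2.add h3
      simpa using this
    refine squeeze_zero' (Eventually.of_forall fun n => by positivity) ?_ h1
    filter_upwards [eventually_ge_atTop 1] with n hn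
    have hn0 : (0 : ℝ) < n := by exact_mod_cast hn
    rw [div_le_iff₀ hn0]
    refine (hk2 n).trans (le_of_eq ?_)
    field_simp
  · intro n S hS hfar
    subst hS
    by_cases hcase : #S ≤ ⌈2 * (#S : ℝ) * rate ε p #S⌉₊
    · -- the sample is everything
      have hempty : ({K ∈ S.powersetCard (min #S ⌈2 * (#S : ℝ) * rate ε p #S⌉₊) | Stretched K} :
          Finset (Finset Pt)) = ∅ := by
        rw [min_eq_left hcase, powersetCard_self]
        have h1 : ¬ Stretched S := by
          have := hfar ∅ (empty_subset _) (by simp; positivity)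
          rwa [sdiff_empty] at this
        rw [filter_eq_empty_iff]
        intro K hK
        rw [mem_singleton] at hK
        rw [hK]
        exact h1
      dsimp only
      rw [hempty, card_empty, Nat.cast_zero]
      positivity
    · push Not at hcase
      have hn1 : 1 ≤ #S := by omega
      have hn0 : (0 : ℝ) < #S := by exact_mod_cast hn1
      have hl := hlog #S hn1
      have hrpos : 0 < rate ε p #S := by unfold rate; positivity
      have hle : 2 * (#S : ℝ) * rate ε p #S ≤ ⌈2 * (#S : ℝ) * rate ε p #S⌉₊ := Nat.le_ceil _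
      have hlt : (⌈2 * (#S : ℝ) * rate ε p #S⌉₊ : ℝ) < #S := by exact_mod_cast hcase
      dsimp only
      rw [min_eq_right hcase.le]
      refine accept_bound hfar (ρ := rate ε p #S) ?_ hcase.le hrpos.le ?_ ?_ ?_
      · have : 0 < 2 * (#S : ℝ) * rate ε p #S := by positivity
        exact Nat.ceil_pos.2 this
      · by_contra h
        push Not at h
        nlinarith
      · linarith
      · have h6 : rate ε p #S ^ 6 = 6 * Real.log (2 * #S / p) / (ε * #S) := by
          unfold rate
          rw [← Real.rpow_natCast, ← Real.rpow_mul (by positivity)]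
          norm_num
        rw [h6]
        have h7 : 6 * Real.log (2 * #S / p) / (ε * #S) * (ε * #S / 6) =
            Real.log (2 * #S / p) := by field_simp
        rw [h7, Real.exp_neg, Real.exp_log (by positivity)]
        refine le_of_eq ?_
        field_simp

end Pool.Agent.Results.MP_097bbc_lc.StretchedTester
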